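import Pool.Agent.Helper74.RN.St

/-!
# Project RN (MP_26f0da_lc), module EAS: the easy languages
-/

set_option autoImplicit false

namespace Pool.Agent.Helper80.RN

open Pool.Agent.Helper74 Pool.Agent.Helper74.RN
open Pool.Agent.Helper74.DI (InH)

/-- The extension by `false`. -/
def fl {G : Type} (P : G → Bool) : Option G → Bool
  | some x => P x
  | none => false

theorem cnt_filt {G : Type} (P : G → Bool) (w : List (Option G)) :
    w.countP (fl P) = (w.filterMap id).countP P := by
  induction w with
  | nil => rfl
  | cons a w ih =>
    cases a with
    | none =>
      rw [List.countP_cons_of_neg (by simp [fl])]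
      simpa using ih
    | some x =>
      have e : (some x :: w).filterMap id = x :: w.filterMap id := rfl
      rw [e, List.countP_cons, List.countP_cons, ih]
      rfl

theorem cnt_none {G : Type} (w : List (Option G)) :
    w.countP (fun o => o.isNone) + (w.filterMap id).length = w.length := by
  induction w with
  | nil => rfl
  | cons a w ih =>
    cases a with
    | none =>
      have e : ((none : Option G) :: w).filterMap id = w.filterMap id := rfl
      simp only [e, List.countP_cons, List.length_cons, Option.isNone_none, if_true]
      omega
    | some x =>
      have e : (some x :: w).filterMap id = x :: w.filterMap id := rfl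
      simp only [e, List.countP_cons, List.length_cons, Option.isNone_some,
        Bool.false_eq_true, if_false]
      omega

theorem cnt_not {G : Type} (P : Option G → Bool) (w : List (Option G)) :
    w.countP P + w.countP (fun o => !P o) = w.length := by
  induction w with
  | nil => rfl
  | cons a w ih =>
    simp only [List.countP_cons, List.length_cons]
    cases h : P a
    · simp only [Bool.false_eq_true, if_false, Bool.not_false, if_true]
      omega
    · simp only [if_true, Bool.not_true, Bool.false_eq_true, if_false]
      omega

theorem th_iff {G : Type} [Fintype G] (hLOW : StLOW) (hUPB : StUPB) (act : G → Bool)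
    (col : G → ℕ) (w : List (Option G)) :
    w ∈ TH (Rc act col) ↔
      ((w.filterMap id).countP (fun x => !act x) + w.length % 2 ≤
          w.countP (fun o => o.isNone)) ∧
        ∀ c ∈ Finset.univ.image col, 2 * (w.filterMap id).countP
          (fun x => !act x || decide (col x = c)) ≤ w.length := by
  have hlen := cnt_none w
  constructor
  · rintro ⟨j, hj, hjl⟩
    obtain ⟨h1, h2, h3⟩ := hLOW G act col _ j hj
    refine ⟨?_, fun c _ => ?_⟩
    · omega
    · have := h2 c
      omega
  · rintro ⟨hA, hB⟩
    obtain ⟨j, hjk, hj⟩ := hUPB G act col (w.filterMap id) (w.countP (fun o => o.isNone))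
      (by
        have e : (w.filterMap id).length + w.countP (fun o => o.isNone) = w.length := by omega
        rw [e]
        exact hA)
      (by
        intro c
        by_cases hc : c ∈ Finset.univ.image col
        · have := hB c hc
          omega
        · have e : (w.filterMap id).countP (fun x => !act x || decide (col x = c)) =
              (w.filterMap id).countP (fun x => !act x) := by
            apply List.countP_congr
            intro x _
            have hx : col x ≠ c := by
              intro h
              exact hc (Finset.mem_image.2 ⟨x, Finset.mem_univ x, h⟩)
            simp [hx]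
          rw [e]
          have h1 : (w.filterMap id).countP (fun x => !act x) ≤ (w.filterMap id).length :=
            List.countP_le_length
          omega)
    exact ⟨j, hj, by omega⟩

theorem hEAS (hCOL : StCOL) (hLOW : StLOW) (hUPB : StUPB) (hCNL : StCNL) (hFIN : DI.StFIN)
    (hINT : DI.StINT) (hHED : DI.StHED) : StEAS := by
  intro n Γ hΓ
  obtain ⟨act, col, hac⟩ := hCOL n Γ hΓ
  have hR : Γ.Adj = Rc act col := by
    funext x y
    exact propext (hac x y)
  rw [hR, ← hHED]
  have hA := hCNL (Option (Fin n)) (fl fun x => !act x) (fun o => o.isNone) true
  have hB := hFIN (Option (Fin n)) ℕ (Finset.univ.image col)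
    (fun c => {w : List (Option (Fin n)) |
      w.countP (fl fun x => !act x || decide (col x = c)) +
          (if false then w.length % 2 else 0) ≤
        w.countP (fun o => !(fl (fun x => !act x || decide (col x = c)) o))})
    (fun c _ => hCNL (Option (Fin n)) (fl fun x => !act x || decide (col x = c))
      (fun o => !(fl (fun x => !act x || decide (col x = c)) o)) false)
  have h := hINT _ _ _ hA hB
  convert h using 1
  ext w
  rw [th_iff hLOW hUPB act col w, Set.mem_inter_iff]
  apply and_congr
  · rw [Set.mem_ofPred_eq, cnt_filt (fun x => !act x) w]
    simp
  · rw [Set.mem_ofPred_eq]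
    apply forall_congr'
    intro c
    apply forall_congr'
    intro _
    rw [Set.mem_ofPred_eq, ← cnt_filt (fun x => !act x || decide (col x = c)) w]
    have e := cnt_not (fl fun x : Fin n => !act x || decide (col x = c)) w
    simp only [Bool.false_eq_true, if_false, add_zero]
    omega

end Pool.Agent.Helper80.RN
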